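import Pool.Agent.HitD5.Data

set_option autoImplicit false

/-! # Leaving out an arbitrary variable -/

namespace Pool.Agent.HitG63

open Pool.Agent.Helper60.Hit MvPolynomial Pool.Agent.CTL45 Pool.Agent.HitD5

variable {n : ℕ}

/-- `x_p ↦ 0`, the other variables are renumbered -/
noncomputable def delp (p : Fin (n + 1)) :
    MvPolynomial (Fin (n + 1)) (ZMod 2) →ₐ[ZMod 2] MvPolynomial (Fin n) (ZMod 2) :=
  aeval (p.insertNth (α := fun _ => MvPolynomial (Fin n) (ZMod 2)) 0 (fun j => X j))

theorem delp_mono (p : Fin (n + 1)) (y : Fin (n + 1) → ℕ) :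
    delp p (mono y) = if y p = 0 then mono (fun j => y (p.succAbove j)) else 0 := by
  unfold delp
  rw [aeval_mono, Fin.prod_univ_succAbove _ p, Fin.insertNth_apply_same]
  simp only [Fin.insertNth_apply_succAbove]
  rw [mono_eq_prod (fun j => y (p.succAbove j))]
  split_ifs with h
  · rw [h, pow_zero, one_mul]
  · rw [zero_pow h, zero_mul]

theorem delp_hits (p : Fin (n + 1)) {g : MvPolynomial (Fin (n + 1)) (ZMod 2)}
    (hg : g ∈ hits (n + 1)) : delp p g ∈ hits n := by
  refine aeval_hits _ (fun i => ?_) hg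
  rcases Fin.eq_self_or_eq_succAbove p i with rfl | ⟨j, rfl⟩
  · rw [Fin.insertNth_apply_same]; exact lin_zero
  · rw [Fin.insertNth_apply_succAbove]; exact lin_X _

theorem wt_delp (p : Fin (n + 1)) {z : Fin (n + 1) → ℕ} (h : z p = 0) :
    wt (fun j => z (p.succAbove j)) = wt z := by
  funext s
  unfold wt
  rw [Fin.sum_univ_succAbove (fun j => z j / 2 ^ s % 2) p, h]
  simp

theorem nlt_delp (p : Fin (n + 1)) {y u : Fin (n + 1) → ℕ} (hy : y p = 0) (hu : u p = 0) :
    NLT (fun j => y (p.succAbove j)) (fun j => u (p.succAbove j)) ↔ NLT y u := by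
  unfold NLT
  rw [wt_delp p hy, wt_delp p hu]
  have h : LexF (fun j => y (p.succAbove j)) (fun j => u (p.succAbove j)) ↔ LexF y u := by
    constructor
    · rintro ⟨i, h1, h2⟩
      refine ⟨p.succAbove i, fun j hj => ?_, h2⟩
      rcases Fin.eq_self_or_eq_succAbove p j with rfl | ⟨j, rfl⟩
      · rw [hy, hu]
      · exact h1 j (Fin.succAbove_lt_succAbove_iff.mp hj)
    · rintro ⟨i, h1, h2⟩
      rcases Fin.eq_self_or_eq_succAbove p i with rfl | ⟨i, rfl⟩
      · rw [hy, hu] at h2
        exact absurd h2 (lt_irrefl _)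
      · exact ⟨i, fun j hj => h1 _ (Fin.succAbove_lt_succAbove_iff.mpr hj), h2⟩
  rw [h]

/-- the converse of `adm_insert` -/
theorem adm_delp (p : Fin (n + 1)) {e0 : Fin (n + 1) → ℕ} (h0 : e0 p = 0) (h : Adm e0) :
    Adm (fun j => e0 (p.succAbove j)) := by
  have hc : p.insertNth (α := fun _ => ℕ) 0 (fun j => e0 (p.succAbove j)) = e0 := by
    funext i
    rcases Fin.eq_self_or_eq_succAbove p i with rfl | ⟨j, rfl⟩
    · rw [Fin.insertNth_apply_same, h0]
    · rw [Fin.insertNth_apply_succAbove]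
  have hm : ∀ y : Fin n → ℕ,
      (aeval (fun j => X (p.succAbove j)) :
        MvPolynomial (Fin n) (ZMod 2) →ₐ[ZMod 2] MvPolynomial (Fin (n + 1)) (ZMod 2)) (mono y) =
        mono (p.insertNth (α := fun _ => ℕ) 0 y) := by
    intro y
    rw [aeval_mono, mono_eq_prod, Fin.prod_univ_succAbove _ p, Fin.insertNth_apply_same,
      pow_zero, one_mul]
    simp only [Fin.insertNth_apply_succAbove]
  refine adm_transport (aeval (fun j => X (p.succAbove j)) :
        MvPolynomial (Fin n) (ZMod 2) →ₐ[ZMod 2] MvPolynomial (Fin (n + 1)) (ZMod 2)).toLinearMap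
    (fun g hg => Submodule.mem_sup_left (aeval_hits _ (fun _ => lin_X _) hg)) ?_
    (fun y hy => ?_) h
  · rw [AlgHom.toLinearMap_apply, hm, hc, CharTwo.add_self_eq_zero]
    exact Submodule.zero_mem _
  · rw [AlgHom.toLinearMap_apply, hm]
    refine Submodule.mem_sup_right (mono_mem_msp ?_)
    rw [← nlt_delp p (by rw [Fin.insertNth_apply_same]) h0]
    simp only [Fin.insertNth_apply_succAbove]
    exact nlt_of_monLT hy

end Pool.Agent.HitG63
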