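import Pool.Agent.HitG63.Del

set_option autoImplicit false

/-! # The operators AB and G0 for an arbitrary inserted position -/

namespace Pool.Agent.HitG63

open Pool.Agent.Helper60.Hit MvPolynomial Pool.Agent.CTL45 Pool.Agent.HitD5

variable {n : ℕ} {w : ℕ → Fin (n + 1)} {r u : ℕ} {e e0 : Fin (n + 1) → ℕ}

/-- `k`-fold halving after leaving out `x_p` -/
noncomputable def hdp (p : Fin (n + 1)) (k : ℕ) :
    MvPolynomial (Fin (n + 1)) (ZMod 2) →ₗ[ZMod 2] MvPolynomial (Fin n) (ZMod 2) :=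
  psik k ∘ₗ (delp p).toLinearMap

theorem hdp_hits (p : Fin (n + 1)) (k : ℕ) {g : MvPolynomial (Fin (n + 1)) (ZMod 2)}
    (hg : g ∈ hits (n + 1)) : hdp p k g ∈ hits n := psik_hits k (delp_hits p hg)

theorem hdp_mono (p : Fin (n + 1)) (k : ℕ) (z : Fin (n + 1) → ℕ) :
    hdp p k (mono z) = if z p = 0 ∧ ∀ i : Fin n, z (p.succAbove i) % 2 ^ k = 2 ^ k - 1 then
      mono (fun i => z (p.succAbove i) / 2 ^ k) else 0 := by
  unfold hdp
  rw [LinearMap.comp_apply, AlgHom.toLinearMap_apply, delp_mono]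
  by_cases h : z p = 0
  · rw [if_pos h, psik_mono]
    by_cases h1 : ∀ i : Fin n, z (p.succAbove i) % 2 ^ k = 2 ^ k - 1
    · rw [if_pos h1, if_pos ⟨h, h1⟩]
    · rw [if_neg h1, if_neg (fun h2 => h1 h2.2)]
  · rw [if_neg h, map_zero, if_neg (fun h2 => h h2.1)]

/-- an operator `K` on `P_n` which preserves hit polynomials, sends every monomial to itself or
to zero, keeps the half of `t` and kills the halves of the bad monomials or makes them small -/
theorem adm_of_sieve_p (S : Wk w r u e e0) {p : Fin (n + 1)} (hw0 : w 0 = p) (k : ℕ)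
    (ht : ∀ i : Fin n, e0 (p.succAbove i) % 2 ^ k = 2 ^ k - 1)
    (K : MvPolynomial (Fin n) (ZMod 2) →ₗ[ZMod 2] MvPolynomial (Fin n) (ZMod 2))
    (hK : ∀ g ∈ hits n, K g ∈ hits n) (P : (Fin n → ℕ) → Prop) [DecidablePred P]
    (hKm : ∀ z, K (mono z) = if P z then mono z else 0)
    (hPt : P (fun i => e0 (p.succAbove i) / 2 ^ k))
    (hbad : ∀ z : Fin (n + 1) → ℕ, z p = 0 →
      (∀ i : Fin n, z (p.succAbove i) % 2 ^ k = 2 ^ k - 1) →
      Bad w r u e0 z → P (fun i => z (p.succAbove i) / 2 ^ k) →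
        NLT (fun i : Fin n => z (p.succAbove i) / 2 ^ k)
          (fun i : Fin n => e0 (p.succAbove i) / 2 ^ k))
    (h : Adm e0) : Adm e := by
  have h00 : e0 p = 0 := by rw [← hw0]; exact S.e0_eq_zero
  have hA : Adm (fun i : Fin n => e0 (p.succAbove i) / 2 ^ k) := adm_halfk k (adm_delp p h00 h)
  have hsmall : ∀ z : Fin (n + 1) → ℕ, (NLT z e0 ∨ Bad w r u e0 z) →
      (K ∘ₗ hdp p k) (mono z) ∈
        msp (fun y => NLT y (fun i : Fin n => e0 (p.succAbove i) / 2 ^ k)) := by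
    intro z hz
    rw [LinearMap.comp_apply, hdp_mono]
    split_ifs with h1
    · rw [hKm]
      split_ifs with h2
      · refine mono_mem_msp ?_
        rcases hz with hz | hz
        · exact nlt_halfk k (y := fun i : Fin n => z (p.succAbove i))
            (u := fun i : Fin n => e0 (p.succAbove i))
            h1.2 ht ((nlt_delp p h1.1 h00).mpr hz)
        · exact hbad z h1.1 h1.2 hz h2
      · exact Submodule.zero_mem _
    · rw [map_zero]; exact Submodule.zero_mem _
  refine adm_transport ((K ∘ₗ hdp p k) ∘ₗ TS w r u) (fun g hg => ?_) ?_ (fun y hy => ?_) hA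
  · exact Submodule.mem_sup_left (hK _ (hdp_hits p k (TS_hits w r u hg)))
  · have h1 := map_msp (K ∘ₗ hdp p k) _ (fun y hy => hsmall y (Or.inl hy)) S.full
    rw [map_add] at h1
    have h2 : (K ∘ₗ hdp p k) (mono e0) = mono (fun i : Fin n => e0 (p.succAbove i) / 2 ^ k) := by
      rw [LinearMap.comp_apply, hdp_mono, if_pos ⟨h00, ht⟩, hKm, if_pos hPt]
    rw [h2] at h1
    exact Submodule.mem_sup_right h1
  · exact Submodule.mem_sup_right (map_msp (K ∘ₗ hdp p k) _ (fun z hz => hsmall z hz) (S.TA hy))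

theorem exists_pos (S : Wk w r u e e0) {p : Fin (n + 1)} (hw0 : w 0 = p) {j : ℕ} (hj : j < u) :
    ∃ b : Fin n, p.succAbove b = w (j + 1) := by
  have hne : w (j + 1) ≠ p := by
    rw [← hw0]
    exact S.inc.ne (by omega) (by have := S.hu; omega) (by omega)
  exact Fin.exists_succAbove_eq hne

/-- operator AB -/
theorem AB_p (S : Wk w r u e e0) {p : Fin (n + 1)} (hw0 : w 0 = p)
    (ht : ∀ i : Fin n, e0 (p.succAbove i) % 2 ^ (r - 1) = 2 ^ (r - 1) - 1) (h : Adm e0) :
    Adm e := by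
  classical
  have hr : 0 < r := lt_of_le_of_lt (Nat.zero_le _) S.hu
  obtain ⟨k, rfl⟩ : ∃ k, r = k + 1 := ⟨r - 1, by omega⟩
  rw [Nat.add_sub_cancel] at ht
  obtain ⟨K, hK, hKm⟩ := exists_keep
    (Finset.univ.filter (fun b : Fin n => ∃ j < u, w (j + 1) = p.succAbove b))
  refine adm_of_sieve_p S hw0 k ht K hK _ hKm ?_ ?_ h
  · intro b hb
    rw [Finset.mem_filter] at hb
    obtain ⟨-, j, hj, hb⟩ := hb
    show e0 (p.succAbove b) / 2 ^ k ≠ 0
    rw [← hb, S.e0_w hj, pow_succ]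
    have h1 : 2 ^ k * 2 - 1 = (2 ^ k - 1) + 2 ^ k * 1 := by
      have := Nat.one_le_two_pow (n := k); omega
    rw [h1, Nat.add_mul_div_left _ _ (by positivity)]
    exact Nat.succ_ne_zero _
  · rintro z hz0 hzm ⟨-, j, hj, -, hlt⟩ hP
    exfalso
    obtain ⟨b, hb⟩ := exists_pos S hw0 hj
    refine hP b (Finset.mem_filter.mpr ⟨Finset.mem_univ _, j, hj, hb.symm⟩) ?_
    have h1 := hzm b
    show z (p.succAbove b) / 2 ^ k = 0
    rw [hb] at h1 ⊢
    have h2 := Nat.div_add_mod (z (w (j + 1))) (2 ^ k)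
    rw [h1] at h2
    rw [pow_succ] at hlt
    by_contra h3
    have h4 : 2 ^ k * 1 ≤ 2 ^ k * (z (w (j + 1)) / 2 ^ k) :=
      Nat.mul_le_mul_left _ (Nat.one_le_iff_ne_zero.mpr h3)
    have := Nat.one_le_two_pow (n := k)
    omega

/-- operator G0: all the gap positions have exponent `2^k - 1` -/
theorem G0_p (S : Wk w r u e e0) {p : Fin (n + 1)} (hw0 : w 0 = p) {k : ℕ} (hk : k ≤ r)
    (ht : ∀ i : Fin n, e0 (p.succAbove i) % 2 ^ k = 2 ^ k - 1)
    (hgap : ∀ j < u, ∀ i, w j < i → i < w (j + 1) → e0 i = 2 ^ k - 1)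
    (h : Adm e0) : Adm e := by
  classical
  set G : Finset (Fin n) := Finset.univ.filter
    (fun b : Fin n => ∃ j < u, w j < p.succAbove b ∧ p.succAbove b < w (j + 1)) with hG
  have hpow := Nat.one_le_two_pow (n := k)
  refine adm_of_sieve_p S hw0 k ht (kill G).toLinearMap (fun g hg => kill_hits G hg) _
    (fun z => kill_mono G z) ?_ ?_ h
  · intro b hb
    rw [hG, Finset.mem_filter] at hb
    obtain ⟨-, j, hj, h1, h2⟩ := hb
    show e0 (p.succAbove b) / 2 ^ k = 0
    rw [hgap j hj _ h1 h2]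
    exact Nat.div_eq_of_lt (by omega)
  · rintro z hz0 hzm ⟨hwt, j, hj, hpre, hlt⟩ hP
    have h00 : e0 p = 0 := by rw [← hw0]; exact S.e0_eq_zero
    right
    refine ⟨?_, ?_⟩
    · funext s
      rw [wt_halfk k (fun i : Fin n => z (p.succAbove i)),
        wt_halfk k (fun i : Fin n => e0 (p.succAbove i)),
        wt_delp p hz0, wt_delp p h00, hwt]
    · obtain ⟨b, hb⟩ := exists_pos S hw0 hj
      refine ⟨b, fun i hi => ?_, ?_⟩
      · show z (p.succAbove i) / 2 ^ k = e0 (p.succAbove i) / 2 ^ k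
        have hib : p.succAbove i < w (j + 1) := by
          rw [← hb]; exact Fin.succAbove_lt_succAbove_iff.mpr hi
        rcases le_or_gt (p.succAbove i) (w j) with h1 | h1
        · rw [hpre _ h1]
        · have h2 : z (p.succAbove i) / 2 ^ k = 0 :=
            hP i (by rw [hG, Finset.mem_filter]; exact ⟨Finset.mem_univ _, j, hj, h1, hib⟩)
          rw [h2, hgap j hj _ h1 hib]
          exact (Nat.div_eq_of_lt (by omega)).symm
      · show z (p.succAbove b) / 2 ^ k < e0 (p.succAbove b) / 2 ^ k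
        have h1 := hzm b
        rw [hb] at h1 ⊢
        rw [S.e0_w hj]
        have h2 := Nat.div_add_mod (z (w (j + 1))) (2 ^ k)
        rw [h1] at h2
        obtain ⟨m, rfl⟩ : ∃ m, r = k + m := ⟨r - k, by omega⟩
        have hm := Nat.one_le_two_pow (n := m)
        have h3 : 2 ^ (k + m) - 1 = (2 ^ k - 1) + 2 ^ k * (2 ^ m - 1) := by
          rw [pow_add, Nat.mul_sub, mul_one]
          have : 2 ^ k * 1 ≤ 2 ^ k * 2 ^ m := Nat.mul_le_mul_left _ hm
          omega
        rw [h3] at hlt ⊢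
        rw [Nat.add_mul_div_left _ _ (by positivity),
          Nat.div_eq_of_lt (show 2 ^ k - 1 < 2 ^ k by omega), zero_add]
        have h4 : 2 ^ k * (z (w (j + 1)) / 2 ^ k) < 2 ^ k * (2 ^ m - 1) := by omega
        exact Nat.lt_of_mul_lt_mul_left h4

end Pool.Agent.HitG63
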